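import Pool.Agent.H447.QR.Stm2
import Pool.Graph.R_seed8.Helper566.FD.J7

/-!
# QR-RVG: the converse algorithm, general form (generalises helper282, QR-RV)
-/

set_option autoImplicit false

namespace Pool.Agent.H382.QR.RVG

open Pool.Agent.H447.QR
open Pool.Agent.Helper566.FD.J7 (prim_int_add prim_int_mul prim_int_neg prim_int_sub prim_pow2)

section tools

variable {α β : Type} [Primcodable α] [Primcodable β]

lemma cp_and {p q : α → Prop} (hp : ComputablePred p) (hq : ComputablePred q) :
    ComputablePred (fun a => p a ∧ q a) := by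
  obtain ⟨f, hf, rfl⟩ := ComputablePred.computable_iff.1 hp
  obtain ⟨g, hg, rfl⟩ := ComputablePred.computable_iff.1 hq
  refine ComputablePred.computable_iff.2 ⟨fun a => f a && g a, Primrec.and.to_comp.comp hf hg, ?_⟩
  funext a
  simp

lemma cp_or {p q : α → Prop} (hp : ComputablePred p) (hq : ComputablePred q) :
    ComputablePred (fun a => p a ∨ q a) := by
  obtain ⟨f, hf, rfl⟩ := ComputablePred.computable_iff.1 hp
  obtain ⟨g, hg, rfl⟩ := ComputablePred.computable_iff.1 hq
  refine ComputablePred.computable_iff.2 ⟨fun a => f a || g a, Primrec.or.to_comp.comp hf hg, ?_⟩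
  funext a
  simp

lemma cp_comp {p : β → Prop} {f : α → β} (hp : ComputablePred p) (hf : Computable f) :
    ComputablePred (fun a => p (f a)) := by
  obtain ⟨g, hg, rfl⟩ := ComputablePred.computable_iff.1 hp
  exact ComputablePred.computable_iff.2 ⟨fun a => g (f a), hg.comp hf, rfl⟩

lemma cp_eq [DecidableEq β] {f g : α → β} (hf : Computable f) (hg : Computable g) :
    ComputablePred (fun a => f a = g a) := by
  have h : ComputablePred (fun p : β × β => p.1 = p.2) :=
    PrimrecPred.computablePred (Primrec.eq (α := β))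
  exact cp_comp h (hf.pair hg)

lemma cp_const (b : Prop) : ComputablePred (fun _ : α => b) := by
  by_cases h : b
  · exact (cp_eq (α := α) (β := ℕ) (Computable.const 0) (Computable.const 0)).of_eq
      (fun _ => ⟨fun _ => h, fun _ => rfl⟩)
  · exact (cp_eq (α := α) (β := ℕ) (Computable.const 0) (Computable.const 1)).of_eq
      (fun _ => ⟨fun h' => absurd h' (by norm_num), fun h' => absurd h' h⟩)

lemma iadd {f g : α → ℤ} (hf : Primrec f) (hg : Primrec g) : Primrec (fun a => f a + g a) :=
  prim_int_add.comp hf hg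

lemma isub {f g : α → ℤ} (hf : Primrec f) (hg : Primrec g) : Primrec (fun a => f a - g a) :=
  prim_int_sub.comp hf hg

lemma imul {f g : α → ℤ} (hf : Primrec f) (hg : Primrec g) : Primrec (fun a => f a * g a) :=
  prim_int_mul.comp hf hg

lemma ipow {f : α → ℤ} (hf : Primrec f) (n : ℕ) : Primrec (fun a => f a ^ n) := by
  induction n with
  | zero => exact (Primrec.const 1).of_eq (fun a => (pow_zero _).symm)
  | succ n ih => exact (imul ih hf).of_eq (fun a => (pow_succ _ _).symm)

lemma h4_prim {A B C D E x z : α → ℤ} (hA : Primrec A) (hB : Primrec B) (hC : Primrec C)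
    (hD : Primrec D) (hE : Primrec E) (hx : Primrec x) (hz : Primrec z) :
    Primrec (fun a => (3 * B a ^ 2 - 8 * A a * C a) * x a ^ 4 +
      4 * (B a * C a - 6 * A a * D a) * x a ^ 3 * z a +
      2 * (2 * C a ^ 2 - 24 * A a * E a - 3 * B a * D a) * x a ^ 2 * z a ^ 2 +
      4 * (C a * D a - 6 * B a * E a) * x a * z a ^ 3 + (3 * D a ^ 2 - 8 * C a * E a) * z a ^ 4) := by
  repeat' first
    | assumption
    | exact Primrec.const _
    | apply isub
    | apply iadd
    | apply ipow
    | apply imul

lemma I_prim {A B C D E : α → ℤ} (hA : Primrec A) (hB : Primrec B) (hC : Primrec C)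
    (hD : Primrec D) (hE : Primrec E) :
    Primrec (fun a => 12 * A a * E a - 3 * B a * D a + C a ^ 2) := by
  repeat' first
    | assumption
    | exact Primrec.const _
    | apply isub
    | apply iadd
    | apply ipow
    | apply imul

lemma J_prim {A B C D E : α → ℤ} (hA : Primrec A) (hB : Primrec B) (hC : Primrec C)
    (hD : Primrec D) (hE : Primrec E) :
    Primrec (fun a => 72 * A a * C a * E a + 9 * B a * C a * D a - 27 * A a * D a ^ 2 -
      27 * E a * B a ^ 2 - 2 * C a ^ 3) := by
  repeat' first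
    | assumption
    | exact Primrec.const _
    | apply isub
    | apply iadd
    | apply ipow
    | apply imul

end tools

lemma pA : Primrec (fun t : T5 => t.1) := Primrec.fst
lemma pB : Primrec (fun t : T5 => t.2.1) := Primrec.fst.comp Primrec.snd
lemma pC : Primrec (fun t : T5 => t.2.2.1) := Primrec.fst.comp (Primrec.snd.comp Primrec.snd)
lemma pD : Primrec (fun t : T5 => t.2.2.2.1) :=
  Primrec.fst.comp (Primrec.snd.comp (Primrec.snd.comp Primrec.snd))
lemma pE : Primrec (fun t : T5 => t.2.2.2.2) :=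
  Primrec.snd.comp (Primrec.snd.comp (Primrec.snd.comp Primrec.snd))

lemma pI : Primrec (fun t : T5 => (ofT t).I) := I_prim pA pB pC pD pE

lemma pJ : Primrec (fun t : T5 => (ofT t).J) := J_prim pA pB pC pD pE

lemma pab : Primrec ab :=
  Primrec.pair (imul (Primrec.const (-432)) pI) (imul (Primrec.const (-1728)) pJ)

lemma p144 : Primrec t144 :=
  Primrec.pair (imul (Primrec.const 144) pA) (Primrec.pair (imul (Primrec.const 144) pB)
    (Primrec.pair (imul (Primrec.const 144) pC) (Primrec.pair (imul (Primrec.const 144) pD)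
      (imul (Primrec.const 144) pE))))

lemma peR : Primrec eR :=
  h4_prim (α := Ent) (pA.comp Primrec.fst) (pB.comp Primrec.fst) (pC.comp Primrec.fst)
    (pD.comp Primrec.fst) (pE.comp Primrec.fst) (Primrec.fst.comp Primrec.snd)
    (Primrec.fst.comp (Primrec.snd.comp Primrec.snd))

lemma peS : Primrec eS :=
  imul (α := Ent) (Primrec.const 48) (ipow (Primrec.snd.comp (Primrec.snd.comp Primrec.snd)) 2)

theorem t_RVG (pg : S_PG) (pv : S_PV) : S_RVG := by
  classical
  intro rk hrk w D P hD h1 h2 h3
  obtain ⟨-, gEqv, gRoot, -, gnrt⟩ := pg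
  have gVL := pv.1
  -- the domain
  obtain ⟨N, hNdef⟩ : ∃ N : T5 → Prop, N = D := ⟨_, rfl⟩
  have hN' : ∀ t, N t ↔ D t := fun t => by rw [hNdef]
  have hN : ComputablePred N := by
    rw [hNdef]
    exact hD
  -- the condition on the list
  obtain ⟨Q, hQdef⟩ : ∃ Q : T5 → List Ent → Prop, Q = fun t L => VL (ab t).1 (ab t).2 L ∧
    L.length + 1 = 2 ^ rk (ab t) * (1 + nrt (ab t).1 (ab t).2) := ⟨_, rfl⟩
  have hQ' : ∀ t L, Q t L ↔ VL (ab t).1 (ab t).2 L ∧
    L.length + 1 = 2 ^ rk (ab t) * (1 + nrt (ab t).1 (ab t).2) := fun t L => by rw [hQdef]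
  have hQ : ComputablePred (fun c : T5 × List Ent => Q c.1 c.2) := by
    rw [hQdef]
    apply cp_and
    · exact cp_comp (f := fun c : T5 × List Ent => (ab c.1, c.2)) gVL.computablePred
        (Primrec.pair (pab.comp Primrec.fst) Primrec.snd).to_comp
    · apply cp_eq
      · exact (Primrec.succ.comp (Primrec.list_length.comp Primrec.snd)).to_comp
      · have e1 : Computable (fun c : T5 × List Ent => 2 ^ rk (ab c.1)) :=
          prim_pow2.to_comp.comp (hrk.comp (pab.comp Primrec.fst).to_comp)
        have e2 : Computable (fun c : T5 × List Ent => 1 + nrt (ab c.1).1 (ab c.1).2) :=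
          (Primrec.nat_add.comp (Primrec.const 1)
            (gnrt.comp (pab.comp Primrec.fst))).to_comp
        exact Primrec.nat_mul.to_comp.comp e1 e2
  -- decoding
  obtain ⟨dec, hdec⟩ : ∃ dec : ℕ → List Ent,
    dec = fun n => ((Encodable.decode n : Option (List Ent))).getD [] := ⟨_, rfl⟩
  have hdecp : Primrec dec := by
    rw [hdec]
    exact Primrec.option_getD.comp Primrec.decode (Primrec.const [])
  have hdece : ∀ L : List Ent, dec (Encodable.encode L) = L := by
    intro L
    rw [hdec]
    simp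
  obtain ⟨R, hRdef⟩ : ∃ R : T5 → ℕ → Prop, R = fun t n => ¬ N t ∨ Q t (dec n) := ⟨_, rfl⟩
  have hR' : ∀ t n, R t n ↔ ¬ N t ∨ Q t (dec n) := fun t n => by rw [hRdef]
  have hR : ComputablePred (fun c : T5 × ℕ => R c.1 c.2) := by
    rw [hRdef]
    apply cp_or
    · exact (cp_comp hN Computable.fst).not
    · exact cp_comp (f := fun c : T5 × ℕ => (c.1, dec c.2)) hQ
        (Primrec.pair Primrec.fst (hdecp.comp Primrec.snd)).to_comp
  have hex : ∀ t, ∃ n, R t n := by
    intro t
    by_cases hNt : N t
    · obtain ⟨L, hL⟩ := h2 t ((hN' t).1 hNt)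
      refine ⟨Encodable.encode L, ?_⟩
      rw [hR', hdece]
      right
      rw [hQ']
      exact hL
    · exact ⟨0, (hR' t 0).2 (Or.inl hNt)⟩
  have hfind : Computable (fun t => Nat.find (hex t)) := Computable.find hR hex
  obtain ⟨g, hg⟩ : ∃ g : T5 → List Ent, g = fun t => dec (Nat.find (hex t)) := ⟨_, rfl⟩
  have hgc : Computable g := by
    rw [hg]
    exact hdecp.to_comp.comp hfind
  have hgQ : ∀ t, N t → Q t (g t) := by
    intro t hNt
    have h := Nat.find_spec (hex t)
    rw [hR'] at h
    rw [hg]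
    exact h.resolve_left (fun h' => h' hNt)
  -- the test
  have hEx : PrimrecPred (fun c : List Ent × T5 => ∃ e ∈ c.1, EqvB (ofT c.2) (eR e) (eS e)) := by
    have h : PrimrecRel (fun (e : Ent) (t : T5) => EqvB (ofT t) (eR e) (eS e)) :=
      gEqv.comp (f := fun c : Ent × T5 => (c.2, (eR c.1, eS c.1)))
        (Primrec.pair Primrec.snd (Primrec.pair (peR.comp Primrec.fst) (peS.comp Primrec.fst)))
    exact h.exists_mem_list
  have hT : ComputablePred (fun t => N t ∧ ((w = false ∨ rk (ab t) ≠ 0) ∧
      (RootB (ofT (t144 t)) ∨ ∃ e ∈ g t, EqvB (ofT (t144 t)) (eR e) (eS e)))) := by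
    refine cp_and hN (cp_and (cp_or (cp_const _) ?_) (cp_or ?_ ?_))
    · exact (cp_eq (hrk.comp pab.to_comp) (Computable.const 0)).not
    · exact (gRoot.comp p144).computablePred
    · exact cp_comp (f := fun t : T5 => (g t, t144 t)) hEx.computablePred (hgc.pair p144.to_comp)
  refine hT.of_eq (fun t => ?_)
  constructor
  · rintro ⟨a1, a2⟩
    have a3 := hgQ t a1
    rw [hQ'] at a3
    exact (h3 t (g t) ((hN' t).1 a1) a3.1 a3.2).2 a2
  · intro a1
    have a2 := h1 t a1
    have a3 := hgQ t ((hN' t).2 a2)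
    rw [hQ'] at a3
    exact ⟨(hN' t).2 a2, (h3 t (g t) a2 a3.1 a3.2).1 a1⟩

end Pool.Agent.H382.QR.RVG
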